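import Mathlib

set_option autoImplicit false

/-!
Characters of the cube `{±1}ⁿ`, sums of characters over the levels `∑ x i = s`, and their recurrence.
-/

namespace Pool.Agent.K7.H65.SP

open Finset

/-- The vertices of the cube. -/
abbrev Cube (n : ℕ) := Fin n → ℤˣ

/-- The characters of the cube. -/
noncomputable def chi {n : ℕ} (a : Finset (Fin n)) (x : Cube n) : ℝ := ∏ i ∈ a, ((x i : ℤ) : ℝ)

/-- The sum of the coordinates. -/
def tot {n : ℕ} (x : Cube n) : ℤ := ∑ i, (x i : ℤ)

/-- The points of the cube whose coordinates have sum `s`. -/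
def shell (n : ℕ) (s : ℤ) : Finset (Cube n) := univ.filter (fun x => tot x = s)

/-- The sum of a character over a level. -/
noncomputable def KS {n : ℕ} (s : ℤ) (a : Finset (Fin n)) : ℝ := ∑ x ∈ shell n s, chi a x

variable {n : ℕ}

theorem mem_shell {s : ℤ} {x : Cube n} : x ∈ shell n s ↔ tot x = s := by
  simp [shell]

theorem unit_sq (u : ℤˣ) : ((u : ℤ) : ℝ) * ((u : ℤ) : ℝ) = 1 := by
  rcases Int.units_eq_one_or u with h | h <;> simp [h]

theorem chi_mul (a : Finset (Fin n)) (x y : Cube n) : chi a (x * y) = chi a x * chi a y := by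
  unfold chi
  rw [← prod_mul_distrib]
  refine prod_congr rfl fun i _ => ?_
  simp

theorem chi_sq (a : Finset (Fin n)) (x : Cube n) : chi a x * chi a x = 1 := by
  unfold chi
  rw [← prod_mul_distrib]
  exact prod_eq_one fun i _ => unit_sq _

theorem abs_chi (a : Finset (Fin n)) (x : Cube n) : |chi a x| = 1 := by
  have h := chi_sq a x
  rw [← abs_mul_abs_self] at h
  nlinarith [abs_nonneg (chi a x)]

theorem mul_self_cube (x : Cube n) : x * x = 1 := by
  ext i
  simp [Int.units_mul_self]

theorem sum_chi (z : Cube n) : ∑ a : Finset (Fin n), chi a z = if z = 1 then (2 : ℝ) ^ n else 0 := by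
  have h1 : ∑ a : Finset (Fin n), chi a z = ∏ i, (1 + ((z i : ℤ) : ℝ)) := by
    rw [prod_one_add, powerset_univ]
    rfl
  rw [h1]
  split_ifs with h
  · subst h
    simp
    norm_num
  · have : ∃ i, z i ≠ 1 := by
      by_contra hno
      push Not at hno
      exact h (funext hno)
    obtain ⟨i, hi⟩ := this
    refine prod_eq_zero (mem_univ i) ?_
    rcases Int.units_eq_one_or (z i) with h | h
    · exact absurd h hi
    · simp [h]

theorem sum_KS_chi (s : ℤ) (z : Cube n) :
    ∑ a : Finset (Fin n), KS s a * chi a z = if tot z = s then (2 : ℝ) ^ n else 0 := by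
  have h1 : ∀ a : Finset (Fin n), KS s a * chi a z = ∑ x ∈ shell n s, chi a (x * z) := by
    intro a
    unfold KS
    rw [sum_mul]
    exact sum_congr rfl fun x _ => (chi_mul a x z).symm
  simp only [h1]
  rw [sum_comm]
  simp only [sum_chi]
  have h2 : ∀ x : Cube n, (x * z = 1) ↔ x = z := by
    intro x
    constructor
    · intro h
      have := congrArg (· * z) h
      simp only [mul_assoc, mul_self_cube, mul_one, one_mul] at this
      exact this
    · rintro rfl
      exact mul_self_cube _
  simp only [h2]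
  rw [sum_ite_eq' (shell n s) z]
  simp only [mem_shell]

theorem abs_KS (s : ℤ) (a : Finset (Fin n)) : |KS s a| ≤ (shell n s).card := by
  unfold KS
  refine (abs_sum_le_sum_abs _ _).trans ?_
  simp [abs_chi]

theorem KS_empty (s : ℤ) : KS s (∅ : Finset (Fin n)) = (shell n s).card := by
  simp [KS, chi]

/-- The recurrence of the level sums. -/
theorem KS_rec (s : ℤ) (a : Finset (Fin n)) :
    (s : ℝ) * KS s a = ∑ c ∈ a, KS s (a.erase c) + ∑ c ∈ aᶜ, KS s (insert c a) := by
  have h1 : ∀ x ∈ shell n s, (s : ℝ) * chi a x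
      = ∑ c ∈ a, chi (a.erase c) x + ∑ c ∈ aᶜ, chi (insert c a) x := by
    intro x hx
    rw [mem_shell] at hx
    rw [← hx]
    unfold tot
    push_cast
    rw [sum_mul, ← sum_add_sum_compl a]
    congr 1
    · refine sum_congr rfl fun c hc => ?_
      have : chi a x = ((x c : ℤ) : ℝ) * chi (a.erase c) x := by
        unfold chi
        rw [mul_prod_erase a (fun i => ((x i : ℤ) : ℝ)) hc]
      rw [this, ← mul_assoc, unit_sq, one_mul]
    · refine sum_congr rfl fun c hc => ?_
      rw [mem_compl] at hc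
      unfold chi
      rw [prod_insert hc]
  unfold KS
  rw [mul_sum, sum_congr rfl h1, sum_add_distrib, sum_comm]
  congr 1
  rw [sum_comm]

theorem KS_perm (s : ℤ) (a : Finset (Fin n)) (σ : Equiv.Perm (Fin n)) :
    KS s (a.map σ.toEmbedding) = KS s a := by
  unfold KS
  refine sum_bij' (fun x _ => fun i => x (σ i)) (fun x _ => fun i => x (σ.symm i)) ?_ ?_ ?_ ?_ ?_
  · intro x hx
    rw [mem_shell] at hx ⊢
    rw [← hx]
    unfold tot
    exact Equiv.sum_comp σ (fun i => (x i : ℤ))
  · intro x hx
    rw [mem_shell] at hx ⊢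
    rw [← hx]
    unfold tot
    exact Equiv.sum_comp σ.symm (fun i => (x i : ℤ))
  · intro x _
    ext i
    simp
  · intro x _
    ext i
    simp
  · intro x _
    unfold chi
    rw [prod_map]
    rfl

theorem KS_card (s : ℤ) (a b : Finset (Fin n)) (h : a.card = b.card) : KS s a = KS s b := by
  classical
  let e : {x // x ∈ a} ≃ {x // x ∈ b} := Fintype.equivOfCardEq (by simpa using h)
  have h1 : a.map (e.extendSubtype).toEmbedding = b := by
    ext i
    simp only [mem_map, Equiv.coe_toEmbedding]
    constructor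
    · rintro ⟨j, hj, rfl⟩
      exact e.extendSubtype_mem j hj
    · intro hi
      refine ⟨(e.symm ⟨i, hi⟩ : {x // x ∈ a}).1, (e.symm ⟨i, hi⟩).2, ?_⟩
      rw [e.extendSubtype_apply_of_mem _ (e.symm ⟨i, hi⟩).2]
      simp
  rw [← h1, KS_perm]

/-- The normalised level sums as a function of the size of the character. -/
noncomputable def kap (N s : ℝ) : ℕ → ℝ
  | 0 => 1
  | 1 => s / N
  | (k + 2) => (s * kap N s (k + 1) - ((k : ℝ) + 1) * kap N s k) / (N - ((k : ℝ) + 1))

theorem KS_eq (s : ℤ) : ∀ k : ℕ, k ≤ n → ∀ a : Finset (Fin n), a.card = k →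
    KS s a = (shell n s).card * kap n s k
  | 0 => by
      intro _ a ha
      rw [card_eq_zero] at ha
      subst ha
      rw [KS_empty]
      simp [kap]
  | 1 => by
      intro hn a ha
      have h := KS_rec s (∅ : Finset (Fin n))
      have h1 : ∀ c ∈ (∅ : Finset (Fin n))ᶜ, KS s (insert c ∅) = KS s a := by
        intro c _
        apply KS_card
        rw [ha]
        simp
      rw [sum_congr rfl h1] at h
      simp only [sum_empty, zero_add, sum_const, compl_empty, card_univ, Fintype.card_fin,
        nsmul_eq_mul, KS_empty] at h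
      have hn' : (n : ℝ) ≠ 0 := by
        have : 0 < n := hn
        positivity
      simp only [kap]
      field_simp
      linarith
  | (k + 2) => by
      intro hn a ha
      have hne : a.Nonempty := by
        rw [← card_pos]
        omega
      obtain ⟨c₀, hc₀⟩ := hne
      have hcard : (a.erase c₀).card = k + 1 := by
        rw [card_erase_of_mem hc₀, ha]
        rfl
      have h := KS_rec s (a.erase c₀)
      have h1 : ∀ c ∈ (a.erase c₀)ᶜ, KS s (insert c (a.erase c₀)) = KS s a := by
        intro c hc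
        rw [mem_compl] at hc
        apply KS_card
        rw [card_insert_of_notMem hc, hcard, ha]
      have h2 : ∀ c ∈ a.erase c₀, KS s ((a.erase c₀).erase c) = (shell n s).card * kap n s k := by
        intro c hc
        apply KS_eq s k (by omega)
        rw [card_erase_of_mem hc, hcard]
        rfl
      rw [sum_congr rfl h1, sum_congr rfl h2, KS_eq s (k + 1) (by omega) _ hcard] at h
      simp only [sum_const, nsmul_eq_mul, card_compl, Fintype.card_fin, hcard] at h
      rw [Nat.cast_sub (by omega)] at h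
      push_cast at h
      have hpos : (n : ℝ) - ((k : ℝ) + 1) ≠ 0 := by
        have : ((k + 2 : ℕ) : ℝ) ≤ n := by exact_mod_cast hn
        push_cast at this
        have : (0 : ℝ) < (n : ℝ) - ((k : ℝ) + 1) := by linarith
        exact this.ne'
      simp only [kap]
      field_simp
      linarith

/-- In a level `∑ x i = n - 2 i` with even `i` the product of all coordinates is one. -/
theorem chi_univ (i : ℕ) (hi : Even i) (x : Cube n) (hx : tot x = n - 2 * i) :
    chi univ x = 1 := by
  have h1 : ∀ j, ∃ m : ℕ, (x j : ℤ) = 1 - 2 * m ∧ ((x j : ℤ) : ℝ) = (-1) ^ m := by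
    intro j
    rcases Int.units_eq_one_or (x j) with h | h
    · exact ⟨0, by simp [h], by simp [h]⟩
    · exact ⟨1, by simp [h], by simp [h]⟩
  choose m hm1 hm2 using h1
  have h2 : (i : ℤ) = ∑ j, (m j : ℤ) := by
    unfold tot at hx
    simp only [hm1] at hx
    rw [sum_sub_distrib, ← mul_sum] at hx
    simp at hx
    linarith
  have h3 : i = ∑ j, m j := by exact_mod_cast h2
  unfold chi
  rw [prod_congr rfl fun j _ => hm2 j, prod_pow_eq_pow_sum, ← h3]
  exact hi.neg_one_pow

theorem KS_compl (i : ℕ) (hi : Even i) (a : Finset (Fin n)) :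
    KS ((n : ℤ) - 2 * i) aᶜ = KS ((n : ℤ) - 2 * i) a := by
  unfold KS
  refine sum_congr rfl fun x hx => ?_
  rw [mem_shell] at hx
  have h1 : chi a x * chi aᶜ x = 1 := by
    have := chi_univ i hi x hx
    unfold chi at this ⊢
    rw [prod_mul_prod_compl]
    exact this
  have h2 := chi_sq a x
  have h3 : chi a x ≠ 0 := by
    intro h
    rw [h] at h2
    simp at h2
  exact mul_left_cancel₀ h3 (h1.trans h2.symm)

theorem shell_nonempty (i : ℕ) (hi : i ≤ n) : (shell n ((n : ℤ) - 2 * i)).Nonempty := by
  refine ⟨fun j => if (j : ℕ) < i then -1 else 1, ?_⟩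
  rw [mem_shell]
  unfold tot
  have h1 : ∀ N : ℕ, ∑ j ∈ range N, (if j < i then (-1 : ℤ) else 1) = N - 2 * (min N i : ℕ) := by
    intro N
    induction N with
    | zero => simp
    | succ N ih =>
      rw [sum_range_succ, ih]
      split_ifs with h
      · rw [min_eq_left h.le, min_eq_left (Nat.succ_le_of_lt h)]
        push_cast
        ring
      · push Not at h
        rw [min_eq_right h, min_eq_right (by omega)]
        push_cast
        ring
  have h2 : ∑ j : Fin n, (((if (j : ℕ) < i then -1 else 1 : ℤˣ)) : ℤ)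
      = ∑ j ∈ range n, (if j < i then (-1 : ℤ) else 1) := by
    rw [← Fin.sum_univ_eq_sum_range (fun j => if j < i then (-1 : ℤ) else 1) n]
    refine sum_congr rfl fun j _ => ?_
    split_ifs <;> simp
  rw [h2, h1, min_eq_right hi]

/-- Growth control for the recurrence. -/
theorem kap_decay (N S : ℕ) (s : ℝ) (hs : |s| ≤ S) (k₀ : ℕ) (hN : 0 < N) :
    ∀ k : ℕ, k₀ ≤ k → 2 * k ≤ N →
    max |kap N s k| |kap N s (k + 1)| ≤
      (1 + 2 * (S : ℝ) / N) ^ (2 * k + S - N) * max |kap N s k₀| |kap N s (k₀ + 1)| := by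
  set U := max |kap N s k₀| |kap N s (k₀ + 1)| with hU
  have hU0 : 0 ≤ U := le_max_of_le_left (abs_nonneg _)
  have hNr : (0 : ℝ) < N := by exact_mod_cast hN
  have hq : (1 : ℝ) ≤ 1 + 2 * (S : ℝ) / N := by
    have : 0 ≤ 2 * (S : ℝ) / N := by positivity
    linarith
  intro k hk
  induction k, hk using Nat.le_induction with
  | base =>
    intro _
    have : (1 : ℝ) ≤ (1 + 2 * (S : ℝ) / N) ^ (2 * k₀ + S - N) := one_le_pow₀ hq
    nlinarith
  | succ k hk ih =>
    intro h2
    have ih' := ih (by omega)
    set u := max |kap N s k| |kap N s (k + 1)| with hu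
    have hu0 : 0 ≤ u := le_max_of_le_left (abs_nonneg _)
    have hj : (0 : ℝ) < (N : ℝ) - ((k : ℝ) + 1) := by
      have : ((k + 2 : ℕ) : ℝ) ≤ N := by exact_mod_cast (by omega : k + 2 ≤ N)
      push_cast at this
      linarith
    have hjj : 2 * ((k : ℝ) + 1) ≤ N := by
      have : ((2 * (k + 1) : ℕ) : ℝ) ≤ N := by exact_mod_cast h2
      push_cast at this
      linarith
    have hrec : |kap N s (k + 2)| ≤ ((S : ℝ) + ((k : ℝ) + 1)) / ((N : ℝ) - ((k : ℝ) + 1)) * u := by
      show |(s * kap N s (k + 1) - ((k : ℝ) + 1) * kap N s k) / ((N : ℝ) - ((k : ℝ) + 1))| ≤ _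
      rw [abs_div, abs_of_pos hj, div_mul_eq_mul_div]
      apply div_le_div_of_nonneg_right _ hj.le
      refine (abs_sub _ _).trans ?_
      rw [abs_mul, abs_mul, abs_of_nonneg (by positivity : (0 : ℝ) ≤ (k : ℝ) + 1), add_mul (S : ℝ)]
      apply add_le_add
      · exact mul_le_mul hs (le_max_right _ _) (abs_nonneg _) (by positivity)
      · exact mul_le_mul_of_nonneg_left (le_max_left _ _) (by positivity)
    have hstep : ∀ ρ : ℝ, 1 ≤ ρ → ((S : ℝ) + ((k : ℝ) + 1)) / ((N : ℝ) - ((k : ℝ) + 1)) ≤ ρ →
        max |kap N s (k + 1)| |kap N s (k + 1 + 1)| ≤ ρ * u := by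
      intro ρ h1 h3
      apply max_le
      · have : |kap N s (k + 1)| ≤ u := le_max_right _ _
        nlinarith
      · exact hrec.trans (mul_le_mul_of_nonneg_right h3 hu0)
    by_cases hc : 2 * (k + 1) + S ≤ N
    · have h3 : ((S : ℝ) + ((k : ℝ) + 1)) / ((N : ℝ) - ((k : ℝ) + 1)) ≤ 1 := by
        rw [div_le_one hj]
        have : ((2 * (k + 1) + S : ℕ) : ℝ) ≤ N := by exact_mod_cast hc
        push_cast at this
        linarith
      have h4 := hstep 1 le_rfl h3
      rw [one_mul] at h4
      have e1 : 2 * k + S - N = 0 := by omega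
      have e2 : 2 * (k + 1) + S - N = 0 := by omega
      rw [e1] at ih'
      rw [e2]
      exact h4.trans ih'
    · have h3 : ((S : ℝ) + ((k : ℝ) + 1)) / ((N : ℝ) - ((k : ℝ) + 1)) ≤ 1 + 2 * (S : ℝ) / N := by
        rw [div_le_iff₀ hj]
        have h5 : (S : ℝ) ≤ 2 * (S : ℝ) / N * ((N : ℝ) - ((k : ℝ) + 1)) := by
          rw [div_mul_eq_mul_div, le_div_iff₀ hNr]
          have : (0 : ℝ) ≤ S := by positivity
          nlinarith
        nlinarith
      have h4 := hstep _ hq h3
      refine h4.trans ?_
      have h6 : (1 + 2 * (S : ℝ) / N) * u ≤ (1 + 2 * (S : ℝ) / N) *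
          ((1 + 2 * (S : ℝ) / N) ^ (2 * k + S - N) * U) :=
        mul_le_mul_of_nonneg_left ih' (by linarith)
      refine h6.trans ?_
      rw [← mul_assoc, ← pow_succ']
      apply mul_le_mul_of_nonneg_right _ hU0
      exact pow_le_pow_right₀ hq (by omega)

end Pool.Agent.K7.H65.SP
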