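import Pool.Agent.K7.H65.SP.Sep
import Pool.Agent.K7.H65.SP.Kraw

set_option autoImplicit false

/-!
Asymptotics of the normalised level sums for levels `s ∼ g √n`, and the choice of the weights.
-/

namespace Pool.Agent.K7.H65.SP

open Filter Topology Finset

/-- The (even) number of coordinates `-1` at the level near `g √n`. -/
noncomputable def iN (g : ℝ) (n : ℕ) : ℕ := 2 * ⌈((n : ℝ) - g * √n) / 4⌉₊

/-- The level near `g √n`. -/
noncomputable def sN (g : ℝ) (n : ℕ) : ℤ := (n : ℤ) - 2 * iN g n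

theorem sN_nonpos {g : ℝ} (hg : g ≤ 0) (n : ℕ) : sN g n ≤ 0 := by
  have h1 := Nat.le_ceil (((n : ℝ) - g * √n) / 4)
  have h2 : g * √n ≤ 0 := mul_nonpos_of_nonpos_of_nonneg hg (Real.sqrt_nonneg _)
  have h3 : (n : ℝ) ≤ 2 * (iN g n : ℝ) := by
    unfold iN
    push_cast
    linarith
  have h4 : (n : ℤ) ≤ 2 * (iN g n : ℤ) := by exact_mod_cast h3
  unfold sN
  linarith

theorem sqrt_tendsto : Tendsto (fun n : ℕ => √(n : ℝ)) atTop atTop :=
  Real.tendsto_sqrt_atTop.comp tendsto_natCast_atTop_atTop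

theorem sN_tendsto (g : ℝ) : Tendsto (fun n : ℕ => (sN g n : ℝ) / √n) atTop (𝓝 g) := by
  have h1 : Tendsto (fun n : ℕ => g - 4 * (√(n : ℝ))⁻¹) atTop (𝓝 (g - 4 * 0)) :=
    (sqrt_tendsto.inv_tendsto_atTop.const_mul 4).const_sub g
  rw [mul_zero, sub_zero] at h1
  refine tendsto_of_tendsto_of_tendsto_of_le_of_le' h1 tendsto_const_nhds ?_ ?_
  · filter_upwards [sqrt_tendsto.eventually_ge_atTop (max |g| 1)] with n hn
    have hs1 : |g| ≤ √(n : ℝ) := (le_max_left _ _).trans hn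
    have hs2 : (1 : ℝ) ≤ √(n : ℝ) := (le_max_right _ _).trans hn
    have hpos : (0 : ℝ) < √(n : ℝ) := by linarith
    have hsq : √(n : ℝ) * √(n : ℝ) = n := Real.mul_self_sqrt (by positivity)
    have hx : 0 ≤ ((n : ℝ) - g * √n) / 4 := by
      have : g ≤ √(n : ℝ) := (le_abs_self g).trans hs1
      have : g * √(n : ℝ) ≤ √(n : ℝ) * √(n : ℝ) := mul_le_mul_of_nonneg_right this hpos.le
      rw [hsq] at this
      linarith
    have h2 := Nat.ceil_lt_add_one hx
    rw [le_div_iff₀ hpos, sub_mul, mul_assoc, inv_mul_cancel₀ hpos.ne']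
    unfold sN iN
    push_cast
    linarith
  · filter_upwards [sqrt_tendsto.eventually_ge_atTop 1] with n hn
    have hpos : (0 : ℝ) < √(n : ℝ) := by linarith
    rw [div_le_iff₀ hpos]
    have h1 := Nat.le_ceil (((n : ℝ) - g * √n) / 4)
    unfold sN iN
    push_cast
    linarith

theorem abs_sN_le (g : ℝ) : ∀ᶠ n : ℕ in atTop, |(sN g n : ℝ)| ≤ (|g| + 1) * √n := by
  have h := (sN_tendsto g).abs
  have h1 := h.eventually_le_const (show |g| < |g| + 1 by linarith)
  filter_upwards [h1, sqrt_tendsto.eventually_ge_atTop 1] with n hn hn1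
  have hpos : (0 : ℝ) < √(n : ℝ) := by linarith
  rw [abs_div, abs_of_pos hpos, div_le_iff₀ hpos] at hn
  exact hn

theorem iN_le (g : ℝ) : ∀ᶠ n : ℕ in atTop, iN g n ≤ n := by
  filter_upwards [abs_sN_le g, sqrt_tendsto.eventually_ge_atTop (|g| + 1)] with n h1 h2
  have hsq : √(n : ℝ) * √(n : ℝ) = n := Real.mul_self_sqrt (by positivity)
  have h3 : (|g| + 1) * √(n : ℝ) ≤ n := by
    calc (|g| + 1) * √(n : ℝ) ≤ √(n : ℝ) * √(n : ℝ) :=
          mul_le_mul_of_nonneg_right h2 (Real.sqrt_nonneg _)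
      _ = n := hsq
  have h4 : -(n : ℝ) ≤ (sN g n : ℝ) := by
    have := neg_abs_le (sN g n : ℝ)
    linarith
  have h5 : -(n : ℤ) ≤ sN g n := by exact_mod_cast h4
  unfold sN at h5
  omega

theorem kap_tendsto (g : ℝ) (s : ℕ → ℝ) (hs : Tendsto (fun n : ℕ => s n / √n) atTop (𝓝 g)) :
    ∀ k : ℕ, Tendsto (fun n : ℕ => √(n : ℝ) ^ k * kap n (s n) k) atTop (𝓝 (He k g))
  | 0 => by simp [kap, He]
  | 1 => by
      simp only [He]
      refine hs.congr' ?_
      filter_upwards [eventually_gt_atTop 0] with n hn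
      have hn' : (0 : ℝ) < n := by exact_mod_cast hn
      have hpos : (0 : ℝ) < √(n : ℝ) := Real.sqrt_pos.2 hn'
      have hsq : √(n : ℝ) * √(n : ℝ) = n := Real.mul_self_sqrt hn'.le
      simp only [kap, pow_one]
      rw [div_eq_iff hpos.ne', mul_comm (√(n : ℝ)), mul_assoc, hsq, div_mul_cancel₀ _ hn'.ne']
  | (k + 2) => by
      have h1 := kap_tendsto g s hs (k + 1)
      have h0 := kap_tendsto g s hs k
      have hr : Tendsto (fun n : ℕ => (n : ℝ) / ((n : ℝ) - ((k : ℝ) + 1))) atTop (𝓝 1) := by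
        have h2 : Tendsto (fun n : ℕ => 1 - ((k : ℝ) + 1) * ((n : ℝ))⁻¹) atTop
            (𝓝 (1 - ((k : ℝ) + 1) * 0)) :=
          ((tendsto_natCast_atTop_atTop (R := ℝ)).inv_tendsto_atTop.const_mul _).const_sub 1
        rw [mul_zero, sub_zero] at h2
        have h3 := h2.inv₀ one_ne_zero
        rw [inv_one] at h3
        refine h3.congr' ?_
        filter_upwards [eventually_gt_atTop (k + 1)] with n hn
        have hn' : ((k : ℝ) + 1) < n := by exact_mod_cast hn
        have hk : (0 : ℝ) ≤ (k : ℝ) := by positivity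
        have hn0 : (n : ℝ) ≠ 0 := by
          have : (0 : ℝ) < n := by linarith
          exact this.ne'
        have hd : (n : ℝ) - ((k : ℝ) + 1) ≠ 0 := by
          have : (0 : ℝ) < (n : ℝ) - ((k : ℝ) + 1) := by linarith
          exact this.ne'
        have h5 : 1 - ((k : ℝ) + 1) * ((n : ℝ))⁻¹ = ((n : ℝ) - ((k : ℝ) + 1)) / n := by
          field_simp
        rw [h5, inv_div]
      have h2 := (((hs.mul h1).sub (h0.const_mul ((k : ℝ) + 1))).mul hr)
      rw [mul_one] at h2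
      show Tendsto _ _ (𝓝 (g * He (k + 1) g - ((k : ℝ) + 1) * He k g))
      refine h2.congr' ?_
      filter_upwards [eventually_gt_atTop (k + 1)] with n hn
      have hn' : ((k : ℝ) + 1) < n := by exact_mod_cast hn
      have hk : (0 : ℝ) ≤ (k : ℝ) := by positivity
      have hn0 : (0 : ℝ) < n := by linarith
      have hd : (n : ℝ) - ((k : ℝ) + 1) ≠ 0 := by
        have : (0 : ℝ) < (n : ℝ) - ((k : ℝ) + 1) := by linarith
        exact this.ne'
      have hpos : (0 : ℝ) < √(n : ℝ) := Real.sqrt_pos.2 hn0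
      have hsq : √(n : ℝ) ^ 2 = n := Real.sq_sqrt hn0.le
      simp only [kap]
      have hn2 : (n : ℝ) / ((n : ℝ) - ((k : ℝ) + 1)) = √(n : ℝ) ^ 2 / ((n : ℝ) - ((k : ℝ) + 1)) := by
        rw [hsq]
      rw [hn2]
      generalize kap (n : ℝ) (s n) (k + 1) = K₁
      generalize kap (n : ℝ) (s n) k = K₀
      revert hd
      generalize (n : ℝ) - ((k : ℝ) + 1) = D
      intro hd
      revert hpos
      generalize √(n : ℝ) = r
      intro hpos
      field_simp
      ring

/-- The normalised level sums decay. -/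
theorem kap_bound (g : ℝ) (m : ℕ) : ∃ B : ℝ, 0 < B ∧ ∀ᶠ n : ℕ in atTop, ∀ k : ℕ, m + 1 ≤ k →
    2 * k ≤ n → √(n : ℝ) ^ (m + 1) * |kap n (sN g n) k| ≤ B := by
  refine ⟨Real.exp (2 * (|g| + 1) ^ 2) * (|He (m + 1) g| + |He (m + 2) g| + 2), by positivity, ?_⟩
  have h1 := (kap_tendsto g (fun n => (sN g n : ℝ)) (sN_tendsto g) (m + 1)).abs.eventually_le_const
    (show |He (m + 1) g| < |He (m + 1) g| + 1 by linarith)
  have h2 := (kap_tendsto g (fun n => (sN g n : ℝ)) (sN_tendsto g) (m + 2)).abs.eventually_le_const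
    (show |He (m + 2) g| < |He (m + 2) g| + 1 by linarith)
  filter_upwards [h1, h2, abs_sN_le g, eventually_gt_atTop 0] with n h1 h2 h3 h4 k hk hkn
  have hn : (0 : ℝ) < n := by exact_mod_cast h4
  have hr1 : (1 : ℝ) ≤ √(n : ℝ) := by
    rw [Real.one_le_sqrt]
    exact_mod_cast h4
  have hr0 : (0 : ℝ) < √(n : ℝ) := by linarith
  have hsq : √(n : ℝ) * √(n : ℝ) = n := Real.mul_self_sqrt hn.le
  set S := (sN g n).natAbs with hS
  have hSabs : |(sN g n : ℝ)| = S := by
    rw [hS, Nat.cast_natAbs]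
    push_cast
    rfl
  have hd := kap_decay n S (sN g n) hSabs.le (m + 1) h4 k hk hkn
  have hq : (1 + 2 * (S : ℝ) / n) ^ (2 * k + S - n) ≤ Real.exp (2 * (|g| + 1) ^ 2) := by
    have e1 : (1 + 2 * (S : ℝ) / n) ^ (2 * k + S - n) ≤ (1 + 2 * (S : ℝ) / n) ^ S := by
      apply pow_le_pow_right₀
      · have : 0 ≤ 2 * (S : ℝ) / n := by positivity
        linarith
      · omega
    refine e1.trans ?_
    have e2 : (1 + 2 * (S : ℝ) / n) ^ S ≤ (Real.exp (2 * (S : ℝ) / n)) ^ S := by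
      apply pow_le_pow_left₀ (by positivity)
      rw [add_comm]
      exact Real.add_one_le_exp _
    refine e2.trans ?_
    rw [← Real.exp_nat_mul]
    apply Real.exp_le_exp.2
    rw [hSabs] at h3
    have e3 : (S : ℝ) * (S : ℝ) ≤ ((|g| + 1) * √n) * ((|g| + 1) * √n) :=
      mul_self_le_mul_self (by positivity) h3
    have e4 : ((|g| + 1) * √(n : ℝ)) * ((|g| + 1) * √n) = (|g| + 1) ^ 2 * n := by
      calc ((|g| + 1) * √(n : ℝ)) * ((|g| + 1) * √n) = (|g| + 1) ^ 2 * (√(n : ℝ) * √(n : ℝ)) := by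
            ring
        _ = (|g| + 1) ^ 2 * n := by rw [hsq]
    rw [e4] at e3
    rw [mul_div_assoc', div_le_iff₀ hn]
    nlinarith
  have hU : √(n : ℝ) ^ (m + 1) * max |kap n (sN g n) (m + 1)| |kap n (sN g n) (m + 1 + 1)| ≤
      |He (m + 1) g| + |He (m + 2) g| + 2 := by
    rw [abs_mul, abs_of_nonneg (by positivity)] at h1 h2
    rw [mul_max_of_nonneg _ _ (by positivity)]
    apply max_le
    · have := abs_nonneg (He (m + 2) g)
      linarith
    · have e1 : √(n : ℝ) ^ (m + 1) * |kap n (sN g n) (m + 1 + 1)| ≤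
          √(n : ℝ) ^ (m + 2) * |kap n (sN g n) (m + 2)| := by
        apply mul_le_mul_of_nonneg_right _ (abs_nonneg _)
        exact pow_le_pow_right₀ hr1 (by omega)
      have := abs_nonneg (He (m + 1) g)
      linarith
  have hle : |kap n (sN g n) k| ≤ Real.exp (2 * (|g| + 1) ^ 2) *
      max |kap n (sN g n) (m + 1)| |kap n (sN g n) (m + 1 + 1)| :=
    (le_max_left _ _).trans (hd.trans (mul_le_mul_of_nonneg_right hq
      (le_max_of_le_left (abs_nonneg _))))
  calc √(n : ℝ) ^ (m + 1) * |kap n (sN g n) k|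
      ≤ √(n : ℝ) ^ (m + 1) * (Real.exp (2 * (|g| + 1) ^ 2) *
        max |kap n (sN g n) (m + 1)| |kap n (sN g n) (m + 1 + 1)|) :=
        mul_le_mul_of_nonneg_left hle (by positivity)
    _ = Real.exp (2 * (|g| + 1) ^ 2) * (√(n : ℝ) ^ (m + 1) *
        max |kap n (sN g n) (m + 1)| |kap n (sN g n) (m + 1 + 1)|) := by ring
    _ ≤ _ := mul_le_mul_of_nonneg_left hU (Real.exp_pos _).le

/-- The normalised level sum. -/
noncomputable def kn {n : ℕ} (s : ℤ) (a : Finset (Fin n)) : ℝ := KS s a / (shell n s).card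

theorem abs_kn {n : ℕ} (s : ℤ) (a : Finset (Fin n)) : |kn s a| ≤ 1 := by
  unfold kn
  rw [abs_div, abs_of_nonneg (by positivity : (0 : ℝ) ≤ ((shell n s).card : ℝ))]
  exact div_le_one_of_le₀ (abs_KS s a) (by positivity)

theorem kn_eq {n : ℕ} (g : ℝ) (hg : iN g n ≤ n) (a : Finset (Fin n)) :
    kn (sN g n) a = kap n (sN g n) (min a.card (n - a.card)) := by
  have hne := shell_nonempty (n := n) (iN g n) hg
  have hpos' : 0 < (shell n (sN g n)).card := hne.card_pos
  have hpos : (0 : ℝ) < ((shell n (sN g n)).card : ℝ) := Nat.cast_pos.2 hpos'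
  have hcard : a.card ≤ n := by simpa using card_le_univ a
  have heven : Even (iN g n) := by
    unfold iN
    exact even_two_mul _
  unfold kn
  rw [div_eq_iff hpos.ne']
  rcases le_total a.card (n - a.card) with h | h
  · rw [min_eq_left h, KS_eq (sN g n) a.card hcard a rfl, mul_comm]
  · rw [min_eq_right h]
    have h1 : KS (sN g n) aᶜ = KS (sN g n) a := KS_compl (iN g n) heven a
    rw [← h1, KS_eq (sN g n) (n - a.card) (Nat.sub_le _ _) aᶜ (by simp [card_compl]), mul_comm]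

/-- The weights: all Fourier coefficients are at least `-B n^(-(m+1)/2)`. -/
theorem weights (m : ℕ) : ∃ (ι : Type) (T : Finset ι) (w : ι → ℝ) (x : ι → ℝ × ℝ) (B : ℝ),
    0 < B ∧ (∀ i ∈ T, 0 ≤ w i) ∧ ∑ i ∈ T, w i = 1 ∧ (∀ i ∈ T, x i ∈ Reg) ∧
    ∀ᶠ n : ℕ in atTop, (∀ i ∈ T, iN (x i).1 n ≤ n ∧ iN (x i).2 n ≤ n) ∧
      ∀ a b : Finset (Fin n), 0 ≤ B / √(n : ℝ) ^ (m + 1) +
        ∑ i ∈ T, w i * (kn (sN (x i).1 n) a * kn (sN (x i).2 n) b) := by
  obtain ⟨ι, T, w, x, hw0, hw1, hx, hpos⟩ := exists_measure m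
  choose B₁ hB₁ hB₁' using fun i => kap_bound (x i).1 m
  choose B₂ hB₂ hB₂' using fun i => kap_bound (x i).2 m
  set B := ∑ i ∈ T, w i * (B₁ i + B₂ i) + 1 with hB
  have hsumB : 0 ≤ ∑ i ∈ T, w i * (B₁ i + B₂ i) :=
    sum_nonneg fun i hi => mul_nonneg (hw0 i hi) (by linarith [hB₁ i, hB₂ i])
  refine ⟨ι, T, w, x, B, by linarith, hw0, hw1, hx, ?_⟩
  have e1 : ∀ᶠ n : ℕ in atTop, ∀ i ∈ T, iN (x i).1 n ≤ n ∧ iN (x i).2 n ≤ n := by
    rw [eventually_all_finset]
    intro i _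
    exact (iN_le _).and (iN_le _)
  have e2 : ∀ᶠ n : ℕ in atTop, ∀ i ∈ T, ∀ k : ℕ, m + 1 ≤ k → 2 * k ≤ n →
      √(n : ℝ) ^ (m + 1) * |kap n (sN (x i).1 n) k| ≤ B₁ i := by
    rw [eventually_all_finset]
    intro i _
    exact hB₁' i
  have e3 : ∀ᶠ n : ℕ in atTop, ∀ i ∈ T, ∀ k : ℕ, m + 1 ≤ k → 2 * k ≤ n →
      √(n : ℝ) ^ (m + 1) * |kap n (sN (x i).2 n) k| ≤ B₂ i := by
    rw [eventually_all_finset]
    intro i _
    exact hB₂' i
  have e4 : ∀ᶠ n : ℕ in atTop, ∀ p ∈ range (m + 1) ×ˢ range (m + 1), p ≠ (0, 0) →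
      0 < ∑ i ∈ T, w i * (kap n (sN (x i).1 n) p.1 * kap n (sN (x i).2 n) p.2) := by
    rw [eventually_all_finset]
    intro p hp
    by_cases hp0 : p = (0, 0)
    · exact Eventually.of_forall fun n h => absurd hp0 h
    · simp only [mem_product, mem_range] at hp
      have hp' := hpos p.1 (by omega) p.2 (by omega) hp0
      have hlim : Tendsto (fun n : ℕ => ∑ i ∈ T, w i *
          ((√(n : ℝ) ^ p.1 * kap n (sN (x i).1 n) p.1) *
           (√(n : ℝ) ^ p.2 * kap n (sN (x i).2 n) p.2))) atTop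
          (𝓝 (∑ i ∈ T, w i * (He p.1 (x i).1 * He p.2 (x i).2))) := by
        apply tendsto_finsetSum
        intro i _
        exact ((kap_tendsto _ _ (sN_tendsto (x i).1) p.1).mul
          (kap_tendsto _ _ (sN_tendsto (x i).2) p.2)).const_mul _
      filter_upwards [hlim.eventually_const_lt hp', eventually_gt_atTop 0] with n hn hn0 _
      have hr0 : (0 : ℝ) < √(n : ℝ) := Real.sqrt_pos.2 (by exact_mod_cast hn0)
      have h1 : ∑ i ∈ T, w i *
          ((√(n : ℝ) ^ p.1 * kap n (sN (x i).1 n) p.1) *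
           (√(n : ℝ) ^ p.2 * kap n (sN (x i).2 n) p.2)) = (√(n : ℝ) ^ p.1 * √(n : ℝ) ^ p.2) *
          ∑ i ∈ T, w i * (kap n (sN (x i).1 n) p.1 * kap n (sN (x i).2 n) p.2) := by
        rw [mul_sum]
        exact sum_congr rfl fun i _ => by ring
      rw [h1] at hn
      exact (mul_pos_iff_of_pos_left (by positivity)).1 hn
  filter_upwards [e1, e2, e3, e4, eventually_gt_atTop 0] with n h1 h2 h3 h4 hn0
  refine ⟨h1, ?_⟩
  intro a b
  have hr0 : (0 : ℝ) < √(n : ℝ) := Real.sqrt_pos.2 (by exact_mod_cast hn0)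
  have hrm : (0 : ℝ) < √(n : ℝ) ^ (m + 1) := by positivity
  have hBn : 0 < B / √(n : ℝ) ^ (m + 1) := by
    have : 0 < B := by linarith
    positivity
  have ha : a.card ≤ n := by simpa using card_le_univ a
  have hb : b.card ≤ n := by simpa using card_le_univ b
  set k := min a.card (n - a.card) with hk
  set l := min b.card (n - b.card) with hl
  have hkn : 2 * k ≤ n := by omega
  have hln : 2 * l ≤ n := by omega
  have hkap1 : ∀ i ∈ T, kn (sN (x i).1 n) a = kap n (sN (x i).1 n) k := fun i hi =>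
    kn_eq _ (h1 i hi).1 a
  have hkap2 : ∀ i ∈ T, kn (sN (x i).2 n) b = kap n (sN (x i).2 n) l := fun i hi =>
    kn_eq _ (h1 i hi).2 b
  -- a lower bound from a bound for the absolute values
  have hlow : (∀ i ∈ T, √(n : ℝ) ^ (m + 1) *
      |kn (sN (x i).1 n) a * kn (sN (x i).2 n) b| ≤ B₁ i + B₂ i) →
      0 ≤ B / √(n : ℝ) ^ (m + 1) + ∑ i ∈ T, w i * (kn (sN (x i).1 n) a * kn (sN (x i).2 n) b) := by
    intro hh
    have h5 : -(∑ i ∈ T, w i * (B₁ i + B₂ i)) / √(n : ℝ) ^ (m + 1) ≤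
        ∑ i ∈ T, w i * (kn (sN (x i).1 n) a * kn (sN (x i).2 n) b) := by
      rw [div_le_iff₀ hrm, ← sum_neg_distrib, sum_mul]
      apply sum_le_sum
      intro i hi
      have h6 := hh i hi
      have h7 := neg_abs_le (kn (sN (x i).1 n) a * kn (sN (x i).2 n) b)
      have h8 := hw0 i hi
      have h9 : -(B₁ i + B₂ i) ≤ (kn (sN (x i).1 n) a * kn (sN (x i).2 n) b) *
          √(n : ℝ) ^ (m + 1) := by nlinarith
      nlinarith
    have h6 : B / √(n : ℝ) ^ (m + 1) = (∑ i ∈ T, w i * (B₁ i + B₂ i)) / √(n : ℝ) ^ (m + 1) +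
        1 / √(n : ℝ) ^ (m + 1) := by
      rw [hB, add_div]
    have h7 : 0 < 1 / √(n : ℝ) ^ (m + 1) := by positivity
    rw [neg_div] at h5
    linarith
  by_cases hkm : m + 1 ≤ k
  · apply hlow
    intro i hi
    have h5 := h2 i hi k hkm hkn
    rw [abs_mul, hkap1 i hi]
    have h6 : |kap n (sN (x i).1 n) k| * |kn (sN (x i).2 n) b| ≤ |kap n (sN (x i).1 n) k| :=
      mul_le_of_le_one_right (abs_nonneg _) (abs_kn _ _)
    have h7 := mul_le_mul_of_nonneg_left h6 hrm.le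
    linarith [hB₂ i]
  · by_cases hlm : m + 1 ≤ l
    · apply hlow
      intro i hi
      have h5 := h3 i hi l hlm hln
      rw [abs_mul, hkap2 i hi]
      have h6 : |kn (sN (x i).1 n) a| * |kap n (sN (x i).2 n) l| ≤ |kap n (sN (x i).2 n) l| :=
        mul_le_of_le_one_left (abs_nonneg _) (abs_kn _ _)
      have h7 := mul_le_mul_of_nonneg_left h6 hrm.le
      linarith [hB₁ i]
    · have h5 : ∑ i ∈ T, w i * (kn (sN (x i).1 n) a * kn (sN (x i).2 n) b) =
          ∑ i ∈ T, w i * (kap n (sN (x i).1 n) k * kap n (sN (x i).2 n) l) :=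
        sum_congr rfl fun i hi => by rw [hkap1 i hi, hkap2 i hi]
      rw [h5]
      by_cases h0 : (k, l) = (0, 0)
      · simp only [Prod.mk.injEq] at h0
        rw [h0.1, h0.2]
        simp only [kap, mul_one, hw1]
        linarith
      · have h6 := h4 (k, l) (by simp only [mem_product, mem_range]; omega) h0
        simp only at h6
        linarith

end Pool.Agent.K7.H65.SP
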