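import Pool.Agent.K7.H65.SP.Asym

set_option autoImplicit false

/-!
The Schrijver number of the strong square of the acute-angle graph of the cube is larger than every
power of the dimension.
-/

namespace Pool.Agent.K7.H65.SP

open Filter Topology Finset

/-- The graph `G_n`: the vertices are the points of `{±1}ⁿ`, two distinct points are adjacent if their
inner product is positive. -/
def acute (n : ℕ) : SimpleGraph (Fin n → ℤˣ) where
  Adj x y := x ≠ y ∧ 0 < ∑ i, (x i : ℤ) * (y i : ℤ)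
  symm := by
    constructor
    rintro x y ⟨h1, h2⟩
    refine ⟨h1.symm, ?_⟩
    simpa [mul_comm] using h2
  loopless := ⟨fun x h => h.1 rfl⟩

/-- The strong product of two graphs. -/
def strongProd {V W : Type} (G : SimpleGraph V) (H : SimpleGraph W) : SimpleGraph (V × W) where
  Adj p q := p ≠ q ∧ (p.1 = q.1 ∨ G.Adj p.1 q.1) ∧ (p.2 = q.2 ∨ H.Adj p.2 q.2)
  symm := by
    constructor
    rintro p q ⟨h1, h2, h3⟩
    exact ⟨h1.symm, h2.imp Eq.symm (fun h => h.symm), h3.imp Eq.symm (fun h => h.symm)⟩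
  loopless := ⟨fun p h => h.1 rfl⟩

/-- `X` is feasible in the definition of the Schrijver number of `G`. -/
def Feasible {V : Type} [Fintype V] (G : SimpleGraph V) (X : Matrix V V ℝ) : Prop :=
  X.PosSemidef ∧ (∀ u v, 0 ≤ X u v) ∧ X.trace = 1 ∧ ∀ u v, G.Adj u v → X u v = 0

/-- The Schrijver number. -/
noncomputable def schrijver {V : Type} [Fintype V] (G : SimpleGraph V) : ℝ :=
  sSup {r | ∃ X : Matrix V V ℝ, Feasible G X ∧ r = ∑ u, ∑ v, X u v}

theorem entry_le {V : Type} [Fintype V] [DecidableEq V] (X : Matrix V V ℝ) (hX : X.PosSemidef)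
    (h1 : X.trace = 1) (u v : V) : X u v ≤ 1 := by
  have hd : ∀ w, 0 ≤ X w w := fun w => hX.diag_nonneg
  have hle : ∀ w, X w w ≤ 1 := by
    intro w
    rw [← h1, Matrix.trace]
    exact single_le_sum (f := fun i => X.diag i) (fun i _ => hd i) (mem_univ w)
  by_cases huv : u = v
  · subst huv
    exact hle u
  · have h2 := (hX.submatrix ![u, v]).det_nonneg
    rw [Matrix.det_fin_two] at h2
    simp only [Matrix.submatrix_apply, Matrix.cons_val_zero, Matrix.cons_val_one] at h2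
    have h3 : X v u = X u v := by
      have := hX.1.apply u v
      simpa using this
    rw [h3] at h2
    nlinarith [hd u, hd v, hle u, hle v]

theorem feasible_bdd {V : Type} [Fintype V] (G : SimpleGraph V) :
    BddAbove {r | ∃ X : Matrix V V ℝ, Feasible G X ∧ r = ∑ u, ∑ v, X u v} := by
  classical
  refine ⟨∑ _u : V, ∑ _v : V, (1 : ℝ), ?_⟩
  rintro r ⟨X, hX, rfl⟩
  exact sum_le_sum fun u _ => sum_le_sum fun v _ => entry_le X hX.1 hX.2.2.1 u v

section
variable {n : ℕ} {ι : Type}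

/-- The Fourier coefficients. -/
noncomputable def cf (A : ℝ) (T : Finset ι) (w : ι → ℝ) (s t : ι → ℤ) (a b : Finset (Fin n)) : ℝ :=
  A + ∑ i ∈ T, w i * (kn (s i) a * kn (t i) b)

/-- The matrix. -/
noncomputable def XM (A : ℝ) (T : Finset ι) (w : ι → ℝ) (s t : ι → ℤ) :
    Matrix (Cube n × Cube n) (Cube n × Cube n) ℝ :=
  fun u v => ∑ p : Finset (Fin n) × Finset (Fin n), cf A T w s t p.1 p.2 *
    ((chi p.1 u.1 * chi p.2 u.2) * (chi p.1 v.1 * chi p.2 v.2))

theorem XM_psd (A : ℝ) (T : Finset ι) (w : ι → ℝ) (s t : ι → ℤ)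
    (h : ∀ a b : Finset (Fin n), 0 ≤ cf A T w s t a b) :
    (XM A T w s t : Matrix (Cube n × Cube n) (Cube n × Cube n) ℝ).PosSemidef := by
  have h1 : (XM A T w s t : Matrix (Cube n × Cube n) (Cube n × Cube n) ℝ) =
      (Matrix.of fun (u : Cube n × Cube n) (p : Finset (Fin n) × Finset (Fin n)) =>
        √(cf A T w s t p.1 p.2) * (chi p.1 u.1 * chi p.2 u.2)) *
      (Matrix.of fun (u : Cube n × Cube n) (p : Finset (Fin n) × Finset (Fin n)) =>
        √(cf A T w s t p.1 p.2) * (chi p.1 u.1 * chi p.2 u.2)).conjTranspose := by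
    ext u v
    rw [Matrix.mul_apply]
    unfold XM
    refine sum_congr rfl fun p _ => ?_
    simp only [Matrix.of_apply, Matrix.conjTranspose_apply, star_trivial]
    have := Real.mul_self_sqrt (h p.1 p.2)
    linear_combination (-(chi p.1 u.1 * chi p.2 u.2 * (chi p.1 v.1 * chi p.2 v.2))) * this
  rw [h1]
  exact Matrix.posSemidef_self_mul_conjTranspose _

theorem sum_kn_chi (s : ℤ) (z : Cube n) :
    ∑ a : Finset (Fin n), kn s a * chi a z =
      if tot z = s then (2 : ℝ) ^ n / (shell n s).card else 0 := by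
  have h := sum_KS_chi s z
  unfold kn
  have h1 : ∀ a : Finset (Fin n), KS s a / ((shell n s).card : ℝ) * chi a z =
      (KS s a * chi a z) / ((shell n s).card : ℝ) := fun a => by ring
  simp only [h1]
  rw [← sum_div, h]
  split_ifs
  · rfl
  · simp

theorem XM_apply (A : ℝ) (T : Finset ι) (w : ι → ℝ) (s t : ι → ℤ) (u v : Cube n × Cube n) :
    XM A T w s t u v = A * ((if u.1 * v.1 = 1 then (2 : ℝ) ^ n else 0) *
        (if u.2 * v.2 = 1 then (2 : ℝ) ^ n else 0)) +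
      ∑ i ∈ T, w i * ((if tot (u.1 * v.1) = s i then (2 : ℝ) ^ n / (shell n (s i)).card else 0) *
        (if tot (u.2 * v.2) = t i then (2 : ℝ) ^ n / (shell n (t i)).card else 0)) := by
  have h1 : ∀ p : Finset (Fin n) × Finset (Fin n), cf A T w s t p.1 p.2 *
      ((chi p.1 u.1 * chi p.2 u.2) * (chi p.1 v.1 * chi p.2 v.2)) =
      A * (chi p.1 (u.1 * v.1) * chi p.2 (u.2 * v.2)) +
      ∑ i ∈ T, w i * ((kn (s i) p.1 * chi p.1 (u.1 * v.1)) *
        (kn (t i) p.2 * chi p.2 (u.2 * v.2))) := by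
    intro p
    unfold cf
    rw [add_mul, sum_mul, chi_mul, chi_mul]
    congr 1
    · ring
    · exact sum_congr rfl fun i _ => by ring
  unfold XM
  rw [sum_congr rfl fun p _ => h1 p, sum_add_distrib, ← mul_sum, sum_comm]
  congr 1
  · rw [← sum_chi, ← sum_chi, Fintype.sum_prod_type, sum_mul_sum]
  · refine sum_congr rfl fun i _ => ?_
    rw [← mul_sum, ← sum_kn_chi, ← sum_kn_chi, Fintype.sum_prod_type, sum_mul_sum]

/-- The sum of the values of a character of the square of the cube. -/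
noncomputable def SS (n : ℕ) (p : Finset (Fin n) × Finset (Fin n)) : ℝ :=
  ∑ u : Cube n × Cube n, chi p.1 u.1 * chi p.2 u.2

theorem card_sq (n : ℕ) : (Fintype.card (Cube n × Cube n) : ℝ) = (2 : ℝ) ^ n * (2 : ℝ) ^ n := by
  rw [Fintype.card_prod, Fintype.card_fun]
  simp

theorem SS_empty (n : ℕ) : SS n (∅, ∅) = (2 : ℝ) ^ n * (2 : ℝ) ^ n := by
  rw [← card_sq]
  unfold SS
  simp [chi]

theorem XM_sum (A : ℝ) (T : Finset ι) (w : ι → ℝ) (s t : ι → ℤ) :
    ∑ u : Cube n × Cube n, ∑ v : Cube n × Cube n, XM A T w s t u v =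
    ∑ p : Finset (Fin n) × Finset (Fin n), cf A T w s t p.1 p.2 * (SS n p * SS n p) := by
  unfold XM
  have e2 : ∀ u : Cube n × Cube n, ∑ v : Cube n × Cube n,
      ∑ p : Finset (Fin n) × Finset (Fin n), cf A T w s t p.1 p.2 *
        ((chi p.1 u.1 * chi p.2 u.2) * (chi p.1 v.1 * chi p.2 v.2)) =
      ∑ p : Finset (Fin n) × Finset (Fin n), ∑ v : Cube n × Cube n, cf A T w s t p.1 p.2 *
        ((chi p.1 u.1 * chi p.2 u.2) * (chi p.1 v.1 * chi p.2 v.2)) := fun u => sum_comm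
  simp only [e2]
  rw [sum_comm]
  refine sum_congr rfl fun p _ => ?_
  unfold SS
  rw [sum_mul_sum, mul_sum]
  refine sum_congr rfl fun u _ => ?_
  rw [mul_sum]

theorem sum_lower {P : Type} [Fintype P] (c f : P → ℝ) (hc : ∀ p, 0 ≤ c p) (p₀ : P) :
    c p₀ * (f p₀ * f p₀) ≤ ∑ p, c p * (f p * f p) := by
  classical
  exact single_le_sum (f := fun p => c p * (f p * f p))
    (fun p _ => mul_nonneg (hc p) (mul_self_nonneg (f p))) (mem_univ p₀)

theorem cf_empty (A : ℝ) (T : Finset ι) (w : ι → ℝ) (s t : ι → ℤ) (hw1 : ∑ i ∈ T, w i = 1)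
    (hsne : ∀ i ∈ T, (shell n (s i)).Nonempty) (htne : ∀ i ∈ T, (shell n (t i)).Nonempty) :
    cf A T w s t (∅ : Finset (Fin n)) ∅ = A + 1 := by
  unfold cf
  congr 1
  rw [← hw1]
  refine sum_congr rfl fun i hi => ?_
  have k1 : kn (s i) (∅ : Finset (Fin n)) = 1 := by
    unfold kn
    rw [KS_empty]
    have : (0 : ℝ) < ((shell n (s i)).card : ℝ) := Nat.cast_pos.2 (hsne i hi).card_pos
    exact div_self this.ne'
  have k2 : kn (t i) (∅ : Finset (Fin n)) = 1 := by
    unfold kn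
    rw [KS_empty]
    have : (0 : ℝ) < ((shell n (t i)).card : ℝ) := Nat.cast_pos.2 (htne i hi).card_pos
    exact div_self this.ne'
  rw [k1, k2]
  ring

theorem XM_sum_le (A : ℝ) (T : Finset ι) (w : ι → ℝ) (s t : ι → ℤ) (hw1 : ∑ i ∈ T, w i = 1)
    (hsne : ∀ i ∈ T, (shell n (s i)).Nonempty) (htne : ∀ i ∈ T, (shell n (t i)).Nonempty)
    (h : ∀ a b : Finset (Fin n), 0 ≤ cf A T w s t a b) :
    (A + 1) * (((2 : ℝ) ^ n * (2 : ℝ) ^ n) * ((2 : ℝ) ^ n * (2 : ℝ) ^ n)) ≤
      ∑ u : Cube n × Cube n, ∑ v : Cube n × Cube n, XM A T w s t u v := by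
  rw [XM_sum]
  have h1 := sum_lower (fun p : Finset (Fin n) × Finset (Fin n) => cf A T w s t p.1 p.2) (SS n)
    (fun p => h p.1 p.2) (∅, ∅)
  simp only [SS_empty, cf_empty A T w s t hw1 hsne htne] at h1
  exact h1

theorem tot_one (n : ℕ) : tot (1 : Cube n) = n := by
  simp [tot]

theorem XM_nonneg (A : ℝ) (hA : 0 < A) (T : Finset ι) (w : ι → ℝ) (s t : ι → ℤ)
    (hw0 : ∀ i ∈ T, 0 ≤ w i) (u v : Cube n × Cube n) : 0 ≤ XM A T w s t u v := by
  rw [XM_apply]
  apply add_nonneg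
  · apply mul_nonneg hA.le
    apply mul_nonneg <;> split_ifs <;> positivity
  · apply sum_nonneg
    intro i hi
    apply mul_nonneg (hw0 i hi)
    apply mul_nonneg <;> split_ifs <;> positivity

theorem XM_diag (A : ℝ) (T : Finset ι) (w : ι → ℝ) (s t : ι → ℤ) (hn : 0 < n)
    (hst : ∀ i ∈ T, s i ≤ 0 ∨ t i ≤ 0) (u : Cube n × Cube n) :
    XM A T w s t u u = A * ((2 : ℝ) ^ n * (2 : ℝ) ^ n) := by
  rw [XM_apply]
  simp only [mul_self_cube, if_true, tot_one]
  rw [sum_eq_zero, add_zero]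
  intro i hi
  rcases hst i hi with h1 | h1
  · rw [if_neg (by omega : ¬ ((n : ℤ) = s i)), zero_mul, mul_zero]
  · rw [if_neg (by omega : ¬ ((n : ℤ) = t i)), mul_zero, mul_zero]

theorem XM_trace (A : ℝ) (T : Finset ι) (w : ι → ℝ) (s t : ι → ℤ) (hn : 0 < n)
    (hst : ∀ i ∈ T, s i ≤ 0 ∨ t i ≤ 0) :
    (XM A T w s t : Matrix (Cube n × Cube n) (Cube n × Cube n) ℝ).trace =
      ((2 : ℝ) ^ n * (2 : ℝ) ^ n) * (A * ((2 : ℝ) ^ n * (2 : ℝ) ^ n)) := by
  rw [← card_sq, Matrix.trace]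
  simp only [Matrix.diag_apply, XM_diag A T w s t hn hst, sum_const, card_univ, nsmul_eq_mul]
  rw [card_sq]

theorem XM_adj (A : ℝ) (T : Finset ι) (w : ι → ℝ) (s t : ι → ℤ) (hn : 0 < n)
    (hst : ∀ i ∈ T, s i ≤ 0 ∨ t i ≤ 0) (u v : Cube n × Cube n)
    (huv : (strongProd (acute n) (acute n)).Adj u v) : XM A T w s t u v = 0 := by
  obtain ⟨h1, h2, h3⟩ := huv
  have key : ∀ x y : Cube n, (x = y ∨ (acute n).Adj x y) → 0 < tot (x * y) := by
    rintro x y (rfl | ⟨_, h4⟩)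
    · rw [mul_self_cube, tot_one]
      exact_mod_cast hn
    · unfold tot
      simpa using h4
  have k1 := key _ _ h2
  have k2 := key _ _ h3
  rw [XM_apply]
  have f : ∀ x y : Cube n, x * y = 1 → x = y := by
    intro x y hxy
    have := congrArg (· * y) hxy
    simpa only [mul_assoc, mul_self_cube, mul_one, one_mul] using this
  have h6 : ((if u.1 * v.1 = 1 then (2 : ℝ) ^ n else 0) *
      (if u.2 * v.2 = 1 then (2 : ℝ) ^ n else 0)) = 0 := by
    by_cases e1 : u.1 * v.1 = 1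
    · have e2 : u.2 * v.2 ≠ 1 := fun e2 => h1 (Prod.ext (f _ _ e1) (f _ _ e2))
      rw [if_neg e2, mul_zero]
    · rw [if_neg e1, zero_mul]
  rw [h6, mul_zero, zero_add]
  apply sum_eq_zero
  intro i hi
  rcases hst i hi with h7 | h7
  · rw [if_neg (by omega : ¬ (tot (u.1 * v.1) = s i)), zero_mul, mul_zero]
  · rw [if_neg (by omega : ¬ (tot (u.2 * v.2) = t i)), mul_zero, mul_zero]

/-- Rescaling a matrix which satisfies the conditions apart from the trace. -/
theorem le_schrijver {V : Type} [Fintype V] (G : SimpleGraph V) (X : Matrix V V ℝ) (τ : ℝ)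
    (hτ : 0 < τ) (h1 : X.PosSemidef) (h2 : ∀ u v, 0 ≤ X u v) (h3 : X.trace = τ)
    (h4 : ∀ u v, G.Adj u v → X u v = 0) : (∑ u, ∑ v, X u v) / τ ≤ schrijver G := by
  have hfeas : Feasible G (τ⁻¹ • X) := by
    refine ⟨h1.smul (by positivity), ?_, ?_, ?_⟩
    · intro u v
      simp only [Matrix.smul_apply, smul_eq_mul]
      exact mul_nonneg (by positivity) (h2 u v)
    · rw [Matrix.trace_smul, h3, smul_eq_mul, inv_mul_cancel₀ hτ.ne']
    · intro u v huv
      simp only [Matrix.smul_apply, smul_eq_mul]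
      rw [h4 u v huv, mul_zero]
  refine le_csSup (feasible_bdd G) ⟨_, hfeas, ?_⟩
  simp only [Matrix.smul_apply, smul_eq_mul, ← mul_sum]
  rw [div_eq_inv_mul]

theorem main (n : ℕ) (A : ℝ) (hA : 0 < A) (T : Finset ι) (w : ι → ℝ) (s t : ι → ℤ) (hn : 0 < n)
    (hw0 : ∀ i ∈ T, 0 ≤ w i) (hw1 : ∑ i ∈ T, w i = 1)
    (hst : ∀ i ∈ T, s i ≤ 0 ∨ t i ≤ 0)
    (hsne : ∀ i ∈ T, (shell n (s i)).Nonempty) (htne : ∀ i ∈ T, (shell n (t i)).Nonempty)
    (h : ∀ a b : Finset (Fin n), 0 ≤ cf A T w s t a b) :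
    1 / A < schrijver (strongProd (acute n) (acute n)) := by
  have hpow : (0 : ℝ) < (2 : ℝ) ^ n * (2 : ℝ) ^ n := by positivity
  have hsum := XM_sum_le A T w s t hw1 hsne htne h
  have hS := le_schrijver (strongProd (acute n) (acute n)) (XM A T w s t)
    (((2 : ℝ) ^ n * (2 : ℝ) ^ n) * (A * ((2 : ℝ) ^ n * (2 : ℝ) ^ n))) (by positivity)
    (XM_psd A T w s t h) (XM_nonneg A hA T w s t hw0) (XM_trace A T w s t hn hst)
    (XM_adj A T w s t hn hst)
  have h1 : (A + 1) / A ≤ (∑ u : Cube n × Cube n, ∑ v : Cube n × Cube n, XM A T w s t u v) /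
      (((2 : ℝ) ^ n * (2 : ℝ) ^ n) * (A * ((2 : ℝ) ^ n * (2 : ℝ) ^ n))) := by
    revert hsum hS hpow
    generalize (2 : ℝ) ^ n * (2 : ℝ) ^ n = P
    generalize ∑ u : Cube n × Cube n, ∑ v : Cube n × Cube n, XM A T w s t u v = Q
    intro hpow hsum _
    rw [div_le_div_iff₀ hA (by positivity)]
    nlinarith
  have hlt : 1 / A < (A + 1) / A := by
    apply div_lt_div_of_pos_right _ hA
    linarith
  exact hlt.trans_le (h1.trans hS)

end

/-- The Schrijver number of the strong square is eventually larger than every power of `n`. -/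
theorem superpolynomial (C : ℕ) :
    ∀ᶠ n : ℕ in atTop, (n : ℝ) ^ C < schrijver (strongProd (acute n) (acute n)) := by
  obtain ⟨ι, T, w, x, B, hB, hw0, hw1, hx, hev⟩ := weights (2 * C)
  filter_upwards [hev, eventually_gt_atTop 0, sqrt_tendsto.eventually_ge_atTop B] with n h1 hn hBn
  obtain ⟨h1, h2⟩ := h1
  have hr0 : (0 : ℝ) < √(n : ℝ) := Real.sqrt_pos.2 (by exact_mod_cast hn)
  have hsq : √(n : ℝ) ^ 2 = n := Real.sq_sqrt (by positivity)
  have hmain := main n (B / √(n : ℝ) ^ (2 * C + 1)) (by positivity) T w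
    (fun i => sN (x i).1 n) (fun i => sN (x i).2 n) hn hw0 hw1 ?_ ?_ ?_ h2
  · refine lt_of_le_of_lt ?_ hmain
    rw [one_div_div, le_div_iff₀ hB, pow_succ, pow_mul, hsq]
    exact mul_le_mul_of_nonneg_left hBn (by positivity)
  · intro i hi
    rcases hx i hi with h | h
    · exact Or.inl (sN_nonpos h n)
    · exact Or.inr (sN_nonpos h n)
  · intro i hi
    exact shell_nonempty _ (h1 i hi).1
  · intro i hi
    exact shell_nonempty _ (h1 i hi).2

end Pool.Agent.K7.H65.SP
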