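import Mathlib

set_option autoImplicit false

/-!
Hermite functions and finitely supported probability measures on the union of three quadrants, all of
whose Hermite moments up to a given degree are positive.
-/

namespace Pool.Agent.K7.H65.SP

open Filter Topology

/-- The probabilists' Hermite polynomials, as functions. -/
noncomputable def He : ℕ → ℝ → ℝ
  | 0, _ => 1
  | 1, g => g
  | (k + 2), g => g * He (k + 1) g - ((k : ℝ) + 1) * He k g

theorem He_scale (g : ℝ) : ∀ k : ℕ, Tendsto (fun t : ℝ => He k (t * g) / t ^ k) atTop (𝓝 (g ^ k))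
  | 0 => by simp [He]
  | 1 => by
      refine tendsto_const_nhds.congr' ?_
      filter_upwards [eventually_gt_atTop (0 : ℝ)] with t ht
      simp [He]
      field_simp
  | (k + 2) => by
      have h1 := He_scale g (k + 1)
      have h0 := He_scale g k
      have h2 : Tendsto (fun t : ℝ => g * (He (k + 1) (t * g) / t ^ (k + 1))
          - ((k : ℝ) + 1) * (He k (t * g) / t ^ k) * (t⁻¹ * t⁻¹)) atTop
          (𝓝 (g * g ^ (k + 1) - ((k : ℝ) + 1) * g ^ k * (0 * 0))) := by
        refine (h1.const_mul g).sub ((h0.const_mul _).mul ?_)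
        exact tendsto_inv_atTop_zero.mul tendsto_inv_atTop_zero
      have h3 : g * g ^ (k + 1) - ((k : ℝ) + 1) * g ^ k * (0 * 0) = g ^ (k + 2) := by ring
      rw [h3] at h2
      refine h2.congr' ?_
      filter_upwards [eventually_gt_atTop (0 : ℝ)] with t ht
      show _ = (t * g * He (k + 1) (t * g) - ((k : ℝ) + 1) * He k (t * g)) / t ^ (k + 2)
      field_simp
      ring

/-- The union of three closed quadrants. -/
def Reg : Set (ℝ × ℝ) := {p | p.1 ≤ 0 ∨ p.2 ≤ 0}

/-- No nonzero combination of products of Hermite polynomials with nonnegative coefficients is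
nonpositive on the union of three quadrants. -/
theorem no_cert (m : ℕ) (b : ℕ × ℕ → ℝ) (hb : ∀ p, 0 ≤ b p)
    (hF : ∀ x ∈ Reg, ∑ p ∈ Finset.range (m + 1) ×ˢ Finset.range (m + 1),
      b p * (He p.1 x.1 * He p.2 x.2) ≤ 0) :
    ∀ p ∈ Finset.range (m + 1) ×ˢ Finset.range (m + 1), b p = 0 := by
  classical
  by_contra hcon
  push Not at hcon
  set T := Finset.range (m + 1) ×ˢ Finset.range (m + 1) with hT
  set S := T.filter (fun p => b p ≠ 0) with hS
  have hSne : S.Nonempty := by
    obtain ⟨p, hp, hp0⟩ := hcon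
    exact ⟨p, by simp [hS, hp, hp0]⟩
  set e : ℕ × ℕ → ℕ := fun p => (m + 1) * p.1 + p.2 with he
  obtain ⟨q, hqS, hq⟩ := S.exists_max_image e hSne
  have hqT : q ∈ T := (Finset.mem_filter.1 hqS).1
  have hq0 : b q ≠ 0 := (Finset.mem_filter.1 hqS).2
  have hbq : 0 < b q := lt_of_le_of_ne (hb q) (Ne.symm hq0)
  have hinj : ∀ p ∈ T, e p = e q → p = q := by
    intro p hp hpq
    simp only [hT, Finset.mem_product, Finset.mem_range] at hp hqT
    simp only [he] at hpq
    have h2 : p.2 = q.2 := by
      have := congrArg (fun z => z % (m + 1)) hpq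
      simp only [Nat.mul_add_mod, Nat.mod_eq_of_lt hp.2, Nat.mod_eq_of_lt hqT.2] at this
      exact this
    have h1 : p.1 = q.1 := by
      rw [h2] at hpq
      have : (m + 1) * p.1 = (m + 1) * q.1 := by omega
      exact Nat.eq_of_mul_eq_mul_left (Nat.succ_pos m) this
    exact Prod.ext h1 h2
  -- the limit along (ε₁ t^(m+1), ε₂ t)
  have hlim : ∀ ε₁ ε₂ : ℝ, Tendsto (fun t : ℝ =>
      (∑ p ∈ T, b p * (He p.1 (t ^ (m + 1) * ε₁) * He p.2 (t * ε₂))) / t ^ (e q)) atTop
      (𝓝 (b q * (ε₁ ^ q.1 * ε₂ ^ q.2))) := by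
    intro ε₁ ε₂
    have h1 : ∀ p ∈ T, Tendsto (fun t : ℝ =>
        b p * ((He p.1 (t ^ (m + 1) * ε₁) / (t ^ (m + 1)) ^ p.1) * (He p.2 (t * ε₂) / t ^ p.2))
          * (t ^ (e p) / t ^ (e q))) atTop
        (𝓝 (if p = q then b q * (ε₁ ^ q.1 * ε₂ ^ q.2) else 0)) := by
      intro p hp
      have ha : Tendsto (fun t : ℝ => He p.1 (t ^ (m + 1) * ε₁) / (t ^ (m + 1)) ^ p.1) atTop
          (𝓝 (ε₁ ^ p.1)) :=
        (He_scale ε₁ p.1).comp (tendsto_pow_atTop (Nat.succ_ne_zero m))
      have hb' := He_scale ε₂ p.2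
      split_ifs with hpq
      · subst hpq
        have hc : Tendsto (fun t : ℝ => t ^ (e p) / t ^ (e p)) atTop (𝓝 1) := by
          refine tendsto_const_nhds.congr' ?_
          filter_upwards [eventually_gt_atTop (0 : ℝ)] with t ht
          field_simp
        have := ((ha.mul hb').const_mul (b p)).mul hc
        simpa using this
      · by_cases hbp : b p = 0
        · simp [hbp]
        · have hpS : p ∈ S := by simp [hS, hp, hbp]
          have hle := hq p hpS
          have hlt : e p < e q := lt_of_le_of_ne hle (fun h => hpq (hinj p hp h))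
          have hc : Tendsto (fun t : ℝ => t ^ (e p) / t ^ (e q)) atTop (𝓝 0) :=
            tendsto_pow_div_pow_atTop_zero hlt
          have := ((ha.mul hb').const_mul (b p)).mul hc
          simpa using this
    have h2 := tendsto_finsetSum T h1
    rw [Finset.sum_ite_eq' T q] at h2
    simp only [hqT, if_true] at h2
    refine h2.congr' ?_
    filter_upwards [eventually_gt_atTop (0 : ℝ)] with t ht
    rw [Finset.sum_div]
    refine Finset.sum_congr rfl fun p _ => ?_
    have h3 : (t ^ (m + 1)) ^ p.1 * t ^ p.2 = t ^ (e p) := by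
      simp only [he]
      rw [← pow_mul, ← pow_add]
    have h4 : t ^ (e p) ≠ 0 := by positivity
    have h5 : t ^ (e q) ≠ 0 := by positivity
    have h6 : (t ^ (m + 1)) ^ p.1 ≠ 0 := by positivity
    have h7 : t ^ p.2 ≠ 0 := by positivity
    rw [← h3]
    field_simp
  have hle : ∀ ε₁ ε₂ : ℝ, (ε₁ ≤ 0 ∨ ε₂ ≤ 0) → b q * (ε₁ ^ q.1 * ε₂ ^ q.2) ≤ 0 := by
    intro ε₁ ε₂ hε
    refine le_of_tendsto (hlim ε₁ ε₂) ?_
    filter_upwards [eventually_gt_atTop (0 : ℝ)] with t ht
    apply div_nonpos_of_nonpos_of_nonneg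
    · refine hF (t ^ (m + 1) * ε₁, t * ε₂) ?_
      rcases hε with h | h
      · left
        exact mul_nonpos_of_nonneg_of_nonpos (by positivity) h
      · right
        exact mul_nonpos_of_nonneg_of_nonpos ht.le h
    · positivity
  have h1 := hle (-1) 1 (Or.inl (by norm_num))
  have h2 := hle 1 (-1) (Or.inr (by norm_num))
  have h3 := hle (-1) (-1) (Or.inl (by norm_num))
  simp only [one_pow, mul_one, one_mul] at h1 h2
  rcases neg_one_pow_eq_or ℝ q.1 with ha | ha <;> rcases neg_one_pow_eq_or ℝ q.2 with hb' | hb' <;>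
    rw [ha] at h1 h3 <;> rw [hb'] at h2 h3 <;> nlinarith

/-- Finitely supported probability measures on the union of three quadrants with positive Hermite
moments. -/
theorem exists_measure (m : ℕ) : ∃ (ι : Type) (T : Finset ι) (w : ι → ℝ) (x : ι → ℝ × ℝ),
    (∀ i ∈ T, 0 ≤ w i) ∧ ∑ i ∈ T, w i = 1 ∧ (∀ i ∈ T, x i ∈ Reg) ∧
    ∀ k ≤ m, ∀ l ≤ m, (k, l) ≠ (0, 0) → 0 < ∑ i ∈ T, w i * (He k (x i).1 * He l (x i).2) := by
  classical
  set J := {p : Fin (m + 1) × Fin (m + 1) // p ≠ (0, 0)} with hJ
  set Φ : ℝ × ℝ → (J → ℝ) := fun x p => He p.1.1 x.1 * He p.1.2 x.2 with hΦ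
  set H : Set (J → ℝ) := convexHull ℝ (Φ '' Reg) with hH
  set O : Set (J → ℝ) := {y | ∀ p, 0 < y p} with hO
  have key : ∃ y ∈ H, y ∈ O := by
    by_contra hcon
    push Not at hcon
    have hdis : Disjoint O H := by
      rw [Set.disjoint_left]
      intro y hy hy'
      exact hcon y hy' hy
    have hOopen : IsOpen O := by
      have : O = ⋂ p, {y : J → ℝ | 0 < y p} := by
        ext y; simp [hO]
      rw [this]
      exact isOpen_iInter_of_finite fun p => isOpen_lt continuous_const (continuous_apply p)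
    have hOconv : Convex ℝ O := by
      intro y hy z hz a b ha hb hab p
      have h1 := hy p
      have h2 := hz p
      simp only [Pi.add_apply, Pi.smul_apply, smul_eq_mul]
      rcases eq_or_lt_of_le ha with h | h
      · subst h
        have : b = 1 := by linarith
        subst this
        simpa using h2
      · have := mul_pos h h1
        have := mul_nonneg hb h2.le
        linarith
    obtain ⟨f, u, hf1, hf2⟩ := geometric_hahn_banach_open hOconv hOopen (convex_convexHull ℝ _) hdis
    -- f ≤ 0 on the orthant, u ≥ 0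
    have hu : 0 ≤ u := by
      by_contra hneg
      push Not at hneg
      -- scale a positive vector to zero
      set y : J → ℝ := fun _ => 1 with hy
      have h1 : ∀ t : ℝ, 0 < t → t * f y < u := by
        intro t ht
        have := hf1 (t • y) (by intro p; simp [hy, ht])
        simpa using this
      by_cases h0 : f y ≥ 0
      · have := h1 1 one_pos
        linarith
      · push Not at h0
        have h2 := h1 (u / (2 * f y)) (by
          apply div_pos_of_neg_of_neg hneg
          linarith)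
        have h0' : f y ≠ 0 := h0.ne
        have h3 : u / (2 * f y) * f y = u / 2 := by
          rw [div_mul_eq_mul_div, mul_comm 2 (f y), mul_comm u (f y), mul_div_mul_left _ _ h0']
        rw [h3] at h2
        linarith
    have hneg : ∀ y ∈ O, f y ≤ 0 := by
      intro y hy
      by_contra hpos
      push Not at hpos
      have h2 := hf1 (((u + 1) / f y) • y) (by
        intro p
        have := hy p
        simp only [Pi.smul_apply, smul_eq_mul]
        positivity)
      simp only [map_smul, smul_eq_mul] at h2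
      rw [div_mul_cancel₀ _ hpos.ne'] at h2
      linarith
    -- coefficients
    set c : J → ℝ := fun p => - f (Pi.single p 1) with hc
    have hfc : ∀ y : J → ℝ, f y = - ∑ p, c p * y p := by
      intro y
      have : y = ∑ p, y p • (Pi.single p (1 : ℝ) : J → ℝ) := by
        ext q
        rw [Finset.sum_apply, Finset.sum_eq_single q]
        · simp
        · intro p _ hpq
          simp [Ne.symm hpq]
        · intro h
          exact absurd (Finset.mem_univ q) h
      conv_lhs => rw [this]
      rw [map_sum]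
      simp only [map_smul, smul_eq_mul, hc]
      rw [← Finset.sum_neg_distrib]
      exact Finset.sum_congr rfl fun p _ => by ring
    have hc0 : ∀ p, 0 ≤ c p := by
      intro p
      -- limit of single p 1 + ε
      have h1 : ∀ ε : ℝ, 0 < ε → f (Pi.single p 1) + ε * f (fun _ => 1) ≤ 0 := by
        intro ε hε
        have := hneg (Pi.single p 1 + ε • (fun _ => (1 : ℝ))) (by
          intro q
          simp only [Pi.add_apply, Pi.smul_apply, smul_eq_mul, mul_one, Pi.single_apply]
          split_ifs <;> linarith)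
        simpa using this
      have h2 : Tendsto (fun ε : ℝ => f (Pi.single p 1) + ε * f (fun _ => 1)) (𝓝[>] 0)
          (𝓝 (f (Pi.single p 1) + 0 * f (fun _ => 1))) := by
        apply Tendsto.mono_left _ nhdsWithin_le_nhds
        exact (tendsto_id.mul_const _).const_add _
      have h3 := le_of_tendsto h2 (by
        filter_upwards [self_mem_nhdsWithin] with ε hε
        exact h1 ε hε)
      simp only [zero_mul, add_zero] at h3
      simp only [hc]
      linarith
    -- extend to all pairs
    set b : ℕ × ℕ → ℝ := fun p => if h : p.1 < m + 1 ∧ p.2 < m + 1 ∧ p ≠ (0, 0) then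
      c ⟨(⟨p.1, h.1⟩, ⟨p.2, h.2.1⟩), by
        intro h'
        apply h.2.2
        have h1 := congrArg (fun z : Fin (m + 1) × Fin (m + 1) => z.1.1) h'
        have h2 := congrArg (fun z : Fin (m + 1) × Fin (m + 1) => z.2.1) h'
        exact Prod.ext h1 h2⟩ else 0 with hbdef
    have hb0 : ∀ p, 0 ≤ b p := by
      intro p
      simp only [hbdef]
      split_ifs
      · exact hc0 _
      · exact le_refl _
    have hsum : ∀ x : ℝ × ℝ, ∑ p ∈ Finset.range (m + 1) ×ˢ Finset.range (m + 1),
        b p * (He p.1 x.1 * He p.2 x.2) = ∑ p : J, c p * Φ x p := by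
      intro x
      symm
      refine Finset.sum_bij_ne_zero (fun (p : J) _ _ => ((p.1.1 : ℕ), (p.1.2 : ℕ))) ?_ ?_ ?_ ?_
      · intro p _ _
        simp only [Finset.mem_product, Finset.mem_range]
        exact ⟨p.1.1.2, p.1.2.2⟩
      · intro p _ _ q _ _ hpq
        simp only [Prod.mk.injEq] at hpq
        exact Subtype.ext (Prod.ext (Fin.ext hpq.1) (Fin.ext hpq.2))
      · intro p hp hp0
        have hbp : b p ≠ 0 := fun h => hp0 (by rw [h, zero_mul])
        have h : p.1 < m + 1 ∧ p.2 < m + 1 ∧ p ≠ (0, 0) := by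
          by_contra hno
          apply hbp
          simp only [hbdef, dif_neg hno]
        refine ⟨⟨(⟨p.1, h.1⟩, ⟨p.2, h.2.1⟩), ?_⟩, Finset.mem_univ _, ?_, rfl⟩
        · intro h'
          apply h.2.2
          have h1 := congrArg (fun z : Fin (m + 1) × Fin (m + 1) => z.1.1) h'
          have h2 := congrArg (fun z : Fin (m + 1) × Fin (m + 1) => z.2.1) h'
          exact Prod.ext h1 h2
        · simp only [hbdef, dif_pos h] at hp0
          exact hp0
      · intro p _ _
        have h : ((p.1.1 : ℕ), (p.1.2 : ℕ)).1 < m + 1 ∧ ((p.1.1 : ℕ), (p.1.2 : ℕ)).2 < m + 1 ∧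
            ((p.1.1 : ℕ), (p.1.2 : ℕ)) ≠ (0, 0) := by
          refine ⟨p.1.1.2, p.1.2.2, ?_⟩
          intro h'
          apply p.2
          simp only [Prod.mk.injEq] at h'
          exact Prod.ext (Fin.ext h'.1) (Fin.ext h'.2)
        have hbp : b ((p.1.1 : ℕ), (p.1.2 : ℕ)) = c p := by
          simp only [hbdef, dif_pos h]
          rfl
        rw [hbp]
    have hF : ∀ x ∈ Reg, ∑ p ∈ Finset.range (m + 1) ×ˢ Finset.range (m + 1),
        b p * (He p.1 x.1 * He p.2 x.2) ≤ 0 := by
      intro x hx
      rw [hsum]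
      have h1 := hf2 (Φ x) (subset_convexHull ℝ _ ⟨x, hx, rfl⟩)
      rw [hfc] at h1
      linarith
    have hzero := no_cert m b hb0 hF
    have hfz : ∀ y : J → ℝ, f y = 0 := by
      intro y
      rw [hfc]
      have : ∀ p : J, c p = 0 := by
        intro p
        have h : ((p.1.1 : ℕ), (p.1.2 : ℕ)).1 < m + 1 ∧ ((p.1.1 : ℕ), (p.1.2 : ℕ)).2 < m + 1 ∧
            ((p.1.1 : ℕ), (p.1.2 : ℕ)) ≠ (0, 0) := by
          refine ⟨p.1.1.2, p.1.2.2, ?_⟩
          intro h'
          apply p.2
          simp only [Prod.mk.injEq] at h'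
          exact Prod.ext (Fin.ext h'.1) (Fin.ext h'.2)
        have hbp : b ((p.1.1 : ℕ), (p.1.2 : ℕ)) = c p := by
          simp only [hbdef, dif_pos h]
          rfl
        rw [← hbp]
        apply hzero
        simp only [Finset.mem_product, Finset.mem_range]
        exact ⟨h.1, h.2.1⟩
      simp [this]
    have h1 := hf1 (fun _ => 1) (by intro p; simp)
    have h2 := hf2 (Φ (0, 0)) (subset_convexHull ℝ _ ⟨(0, 0), Or.inl le_rfl, rfl⟩)
    rw [hfz] at h1 h2
    linarith
  obtain ⟨y, hyH, hyO⟩ := key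
  rw [hH, convexHull_eq] at hyH
  obtain ⟨ι, T, w, z, hw0, hw1, hz, hcm⟩ := hyH
  rw [Finset.centerMass_eq_of_sum_1 _ _ hw1] at hcm
  have hz' : ∀ i, ∃ x : ℝ × ℝ, i ∈ T → x ∈ Reg ∧ Φ x = z i := by
    intro i
    by_cases hi : i ∈ T
    · obtain ⟨x, hx, hxz⟩ := hz i hi
      exact ⟨x, fun _ => ⟨hx, hxz⟩⟩
    · exact ⟨0, fun h => absurd h hi⟩
  choose x hx using hz'
  refine ⟨ι, T, w, x, hw0, hw1, fun i hi => (hx i hi).1, ?_⟩
  intro k hk l hl hkl
  have hne : ((⟨k, Nat.lt_succ_of_le hk⟩, ⟨l, Nat.lt_succ_of_le hl⟩) :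
      Fin (m + 1) × Fin (m + 1)) ≠ (0, 0) := by
    intro h'
    apply hkl
    have h1 := congrArg (fun z : Fin (m + 1) × Fin (m + 1) => z.1.1) h'
    have h2 := congrArg (fun z : Fin (m + 1) × Fin (m + 1) => z.2.1) h'
    exact Prod.ext h1 h2
  have h1 := hyO ⟨_, hne⟩
  rw [← hcm, Finset.sum_apply] at h1
  have h2 : ∑ i ∈ T, (w i • z i) ⟨_, hne⟩ = ∑ i ∈ T, w i * (He k (x i).1 * He l (x i).2) := by
    refine Finset.sum_congr rfl fun i hi => ?_
    rw [← (hx i hi).2]
    simp [hΦ]
  rw [h2] at h1
  exact h1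

end Pool.Agent.K7.H65.SP
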